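import Pool.Agent.helper97.GD.Spec

/-! Row gd:GCP. -/

set_option autoImplicit false

open Filter FirstOrder FirstOrder.Language

namespace Pool.Agent.GD

open Pool.Agent.UnivT

/-- the real inequality -/
theorem GCP_real (x : ℤ) (j k M : ℕ) (hjk : j ≤ k)
    (h : |(x : ℝ)| ≤ (2 : ℝ) ^ ((1 / ((k : ℝ) + 1)) * 2 ^ M)) : |x| ^ j ≤ 2 ^ (2 ^ M) := by
  have hk : (0 : ℝ) < (k : ℝ) + 1 := by positivity
  have h1 : |(x : ℝ)| ^ j ≤ ((2 : ℝ) ^ ((1 / ((k : ℝ) + 1)) * 2 ^ M)) ^ j :=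
    pow_le_pow_left₀ (abs_nonneg _) h j
  have h2 : ((2 : ℝ) ^ ((1 / ((k : ℝ) + 1)) * 2 ^ M)) ^ j = (2 : ℝ) ^ ((1 / ((k : ℝ) + 1)) * 2 ^ M * j) := by
    rw [Real.rpow_mul (by norm_num) ((1 / ((k : ℝ) + 1)) * 2 ^ M) (j : ℝ), Real.rpow_natCast]
  have h3 : (1 / ((k : ℝ) + 1)) * 2 ^ M * j ≤ ((2 ^ M : ℕ) : ℝ) := by
    have h4 : (j : ℝ) ≤ (k : ℝ) := by exact_mod_cast hjk
    have h5 : (1 / ((k : ℝ) + 1)) * j ≤ 1 := by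
      rw [one_div, inv_mul_le_iff₀ hk]
      linarith
    have h6 : (0 : ℝ) ≤ 2 ^ M := by positivity
    push_cast
    calc (1 / ((k : ℝ) + 1)) * 2 ^ M * j = ((1 / ((k : ℝ) + 1)) * j) * 2 ^ M := by ring
      _ ≤ 1 * 2 ^ M := mul_le_mul_of_nonneg_right h5 h6
      _ = 2 ^ M := one_mul _
  have h7 : (2 : ℝ) ^ ((1 / ((k : ℝ) + 1)) * 2 ^ M * j) ≤ (2 : ℝ) ^ ((2 ^ M : ℕ) : ℝ) :=
    Real.rpow_le_rpow_of_exponent_le (by norm_num) h3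
  rw [Real.rpow_natCast] at h7
  have h8 : |(x : ℝ)| ^ j ≤ (2 : ℝ) ^ (2 ^ M) := h1.trans (h2.le.trans h7)
  exact_mod_cast h8

theorem GCP (hGTM : GTM_stmt) (hGEN : GEN_stmt) : GCP_stmt := by
  intro n t δ hδ
  by_contra hcon
  push Not at hcon
  have h0 : ∀ k : ℕ, ∃ (m : ℕ) (v : Fin n → ℤ), k ≤ m ∧
      (∀ i, |(v i : ℝ)| ≤ (2 : ℝ) ^ ((1 / ((k : ℝ) + 1)) * 2 ^ m)) ∧
      ¬ ((2 : ℤ) ^ (2 ^ m) + 1 ∣ t.realize v) ∧
      ((2 : ℝ) ^ (2 ^ m) + 1) ^ δ < ((Int.gcd (t.realize v) (2 ^ (2 ^ m) + 1) : ℕ) : ℝ) := by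
    intro k
    obtain ⟨m, v, h1, h2, h3, h4⟩ := hcon (1 / ((k : ℝ) + 1)) k (by positivity)
    exact ⟨m, v, h1, h2, h3, h4⟩
  choose m v hm hv hdvd hgcd using h0
  have hU : ((hyperfilter ℕ : Ultrafilter ℕ) : Filter ℕ) ≤ atTop := Nat.hyperfilter_le_atTop
  have hmt : Tendsto m ((hyperfilter ℕ : Ultrafilter ℕ) : Filter ℕ) atTop :=
    tendsto_atTop_mono hm (tendsto_id.mono_left hU)
  have hNt : Tendsto (fun k => 2 ^ m k) ((hyperfilter ℕ : Ultrafilter ℕ) : Filter ℕ) atTop :=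
    tendsto_atTop_mono (fun k => (Nat.lt_two_pow_self (n := m k)).le) hmt
  have hsm : ∀ i : Fin n, Sm (hyperfilter ℕ) (fun k => 2 ^ m k) (fun k => v k i) := by
    intro i j
    have : ∀ᶠ k in ((hyperfilter ℕ : Ultrafilter ℕ) : Filter ℕ), j ≤ k :=
      hU (eventually_ge_atTop j)
    filter_upwards [this] with k hk
    exact GCP_real (v k i) j k (m k) hk (hv k i)
  obtain ⟨j, hj⟩ := hGTM (hyperfilter ℕ) (fun k => 2 ^ m k) hNt (fun (i : Fin n) k => v k i) hsm t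
  have h5 := hGEN (hyperfilter ℕ) m hmt (j + 1) _ hj δ hδ
  obtain ⟨k, hk⟩ := h5.exists
  rcases hk with hk | hk
  · exact hdvd k hk
  · exact absurd hk (not_le.2 (hgcd k))

end Pool.Agent.GD
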